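import Pool.Agent.H32.N6.Top

/-!
# The Hasse principle for smooth intersections of two quadrics in `ℙ⁶`

`MP_63b6b1_nt`, `n = 6`, every number field `K`, the pencil of quadrics has no singular member over
a proper subfield of the field of degree seven which it defines: the discriminant
`det(H₁ - X H₂)` of the Hessian matrices is an irreducible polynomial of degree seven.
-/

set_option autoImplicit false

open Polynomial NumberField IsDedekindDomain

namespace Pool.Agent.Results.MP_63b6b1_nt.IrreducibleDiscriminant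

/-- the Hessian matrix of a polynomial of degree two (twice the Gram matrix) -/
noncomputable def hess {K : Type} [Field K] (f : MvPolynomial (Fin 7) K) :
    Matrix (Fin 7) (Fin 7) K :=
  Matrix.of fun i j => MvPolynomial.coeff 0 (MvPolynomial.pderiv i (MvPolynomial.pderiv j f))

/-- the discriminant of the pencil spanned by `f₁` and `f₂` -/
noncomputable def disc {K : Type} [Field K] (f₁ f₂ : MvPolynomial (Fin 7) K) : K[X] :=
  ((hess f₁).map (C : K →+* K[X]) - (X : K[X]) • (hess f₂).map (C : K →+* K[X])).det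

/-- Let `K` be a number field and let `f₁`, `f₂` be quadratic forms in seven variables over `K`
such that `det(H₁ - X H₂)` is irreducible of degree seven. Then `f₁ = f₂ = 0` is a smooth
complete intersection in `ℙ⁶` and satisfies the Hasse principle: if it has points over all
completions of `K`, it has a point over `K`. -/
theorem result (K : Type) [Field K] [NumberField K] (f₁ f₂ : MvPolynomial (Fin 7) K)
    (h1 : f₁.IsHomogeneous 2) (h2 : f₂.IsHomogeneous 2)
    (hirr : Irreducible (disc f₁ f₂)) (hdeg : (disc f₁ f₂).natDegree = 7) :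
    (∀ x : Fin 7 → AlgebraicClosure K, x ≠ 0 →
      MvPolynomial.eval₂ (algebraMap K (AlgebraicClosure K)) x f₁ = 0 →
      MvPolynomial.eval₂ (algebraMap K (AlgebraicClosure K)) x f₂ = 0 →
      LinearIndependent (AlgebraicClosure K)
        ![fun i => MvPolynomial.eval₂ (algebraMap K (AlgebraicClosure K)) x
            (MvPolynomial.pderiv i f₁),
          fun i => MvPolynomial.eval₂ (algebraMap K (AlgebraicClosure K)) x
            (MvPolynomial.pderiv i f₂)]) ∧
    ((∀ φ : K →+* ℝ, ∃ x : Fin 7 → ℝ, x ≠ 0 ∧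
        MvPolynomial.eval₂ φ x f₁ = 0 ∧ MvPolynomial.eval₂ φ x f₂ = 0) →
      (∀ v : HeightOneSpectrum (𝓞 K), ∃ x : Fin 7 → v.adicCompletion K, x ≠ 0 ∧
        MvPolynomial.eval₂ (algebraMap K (v.adicCompletion K)) x f₁ = 0 ∧
        MvPolynomial.eval₂ (algebraMap K (v.adicCompletion K)) x f₂ = 0) →
      ∃ x : Fin 7 → K, x ≠ 0 ∧ MvPolynomial.eval x f₁ = 0 ∧ MvPolynomial.eval x f₂ = 0) :=
  ⟨Pool.Agent.H32.N6.smooth Pool.Agent.H32.N6.AllIrr.hes Pool.Agent.H32.N6.AllIrr.smo K f₁ f₂
      h1 h2 hirr hdeg,
    fun hR hF => Pool.Agent.H32.N6.hasse Pool.Agent.H32.N6.AllIrr.hes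
      Pool.Agent.H32.N6.Top.main K f₁ f₂ h1 h2 hirr hdeg hR hF⟩

end Pool.Agent.Results.MP_63b6b1_nt.IrreducibleDiscriminant
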