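import Pool.Agent.H32.N6V.All2

/-!
# The Hasse principle for smooth intersections of two quadrics in `ℙ⁶`

`MP_63b6b1_nt`, `n = 6`, every number field `K`. The only condition besides smoothness is that for
no proper factorisation of the discriminant of the pencil the norm of the signed discriminants of
the corresponding singular members is a square in `K` (`NoSquareNorm`); for irreducible
discriminants (the generic case) there is no condition.
-/

set_option autoImplicit false

open Polynomial NumberField IsDedekindDomain Matrix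

namespace Pool.Agent.Results.MP_63b6b1_nt.SmoothDimensionFour

/-- `f₁ = f₂ = 0` is a smooth complete intersection in `ℙ⁶`: the gradients are linearly
independent at every nonzero zero over an algebraic closure (as in the frozen statement) -/
def Smooth {K : Type} [Field K] (f₁ f₂ : MvPolynomial (Fin 7) K) : Prop :=
  ∀ x : Fin 7 → AlgebraicClosure K, x ≠ 0 →
    MvPolynomial.eval₂ (algebraMap K (AlgebraicClosure K)) x f₁ = 0 →
    MvPolynomial.eval₂ (algebraMap K (AlgebraicClosure K)) x f₂ = 0 →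
    LinearIndependent (AlgebraicClosure K)
      ![fun i => MvPolynomial.eval₂ (algebraMap K (AlgebraicClosure K)) x
          (MvPolynomial.pderiv i f₁),
        fun i => MvPolynomial.eval₂ (algebraMap K (AlgebraicClosure K)) x
          (MvPolynomial.pderiv i f₂)]

/-- the matrix of second derivatives of a form of degree two (twice the Gram matrix) -/
noncomputable def hess {K : Type} [Field K] (f : MvPolynomial (Fin 7) K) :
    Matrix (Fin 7) (Fin 7) K :=
  Matrix.of fun i j => MvPolynomial.coeff 0 (MvPolynomial.pderiv i (MvPolynomial.pderiv j f))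

/-- the pencil `H₁ - X H₂` -/
noncomputable def pencil {K : Type} [Field K] (f₁ f₂ : MvPolynomial (Fin 7) K) :
    Matrix (Fin 7) (Fin 7) K[X] :=
  (hess f₁).map (C : K →+* K[X]) - (X : K[X]) • (hess f₂).map (C : K →+* K[X])

/-- the discriminant of the pencil -/
noncomputable def disc {K : Type} [Field K] (f₁ f₂ : MvPolynomial (Fin 7) K) : K[X] :=
  (pencil f₁ f₂).det

/-- minus the value at `u` of the adjugate of the pencil: at a root `t` of the discriminant this
is, up to a square (possibly zero), the signed discriminant of the form of rank six defined by the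
singular member `f₁ - t f₂` -/
noncomputable def sdisc {K : Type} [Field K] (f₁ f₂ : MvPolynomial (Fin 7) K) (u : Fin 7 → K) :
    K[X] :=
  -((fun i => C (u i)) ⬝ᵥ ((pencil f₁ f₂).adjugate *ᵥ fun i => C (u i)))

/-- for no proper factor `Q` of the discriminant the norm of the signed discriminants of the
singular members at the roots of `Q` is a square in `K` -/
def NoSquareNorm {K : Type} [Field K] (f₁ f₂ : MvPolynomial (Fin 7) K) : Prop :=
  ∀ Q R : K[X], Q.Monic → R.Monic → Q ≠ 1 → R ≠ 1 → Associated (Q * R) (disc f₁ f₂) →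
    ∃ u : Fin 7 → K, ¬ IsSquare (Q.resultant (sdisc f₁ f₂ u))

theorem sdisc_fun {K : Type} [Field K] : @sdisc K _ = fun f₁ f₂ u =>
    -((fun i => C (u i)) ⬝ᵥ ((pencil f₁ f₂).adjugate *ᵥ fun i => C (u i)) : K[X]) := by
  delta sdisc
  with_reducible rfl

theorem pencil_bf {K : Type} [Field K] (f₁ f₂ : MvPolynomial (Fin 7) K) (u : Fin 7 → K) :
    ((fun i => C (u i)) ⬝ᵥ ((pencil f₁ f₂).adjugate *ᵥ fun i => C (u i))) =
      Pool.Agent.H32.N6V.bf (Pool.Agent.H32.SAB.hes f₁) (Pool.Agent.H32.SAB.hes f₂) u u := rfl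

theorem sdisc_eq {K : Type} [Field K] (f₁ f₂ : MvPolynomial (Fin 7) K) (u : Fin 7 → K) :
    sdisc f₁ f₂ u =
      Pool.Agent.H34.N6V.dm (Pool.Agent.H32.SAB.hes f₁) (Pool.Agent.H32.SAB.hes f₂) u := by
  rw [Pool.Agent.H32.N6V.dm_eq, sdisc_fun, ← pencil_bf]

theorem nv_iff {K : Type} [Field K] (f₁ f₂ : MvPolynomial (Fin 7) K) :
    NoSquareNorm f₁ f₂ ↔
      Pool.Agent.H34.N6V.NVM (Pool.Agent.H32.SAB.hes f₁) (Pool.Agent.H32.SAB.hes f₂) := by
  constructor
  · intro h Q R hQ hR hQ1 hR1 hass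
    obtain ⟨u, hu⟩ := h Q R hQ hR hQ1 hR1 hass
    refine ⟨u, ?_⟩
    rw [sdisc_eq] at hu
    exact hu
  · intro h Q R hQ hR hQ1 hR1 hass
    obtain ⟨u, hu⟩ := h Q R hQ hR hQ1 hR1 hass
    refine ⟨u, ?_⟩
    rw [sdisc_eq]
    exact hu

/-- Let `K` be a number field and let `f₁`, `f₂` be quadratic forms in seven variables over `K`
with `disc f₁ f₂` of degree seven (`f₂` nonsingular). (1) If `disc f₁ f₂` is irreducible, then
`X : f₁ = f₂ = 0` is smooth and `NoSquareNorm f₁ f₂` holds. (2) If `X` is smooth and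
`NoSquareNorm f₁ f₂` holds, then `X` satisfies the Hasse principle. -/
theorem result (K : Type) [Field K] [NumberField K] (f₁ f₂ : MvPolynomial (Fin 7) K)
    (h1 : f₁.IsHomogeneous 2) (h2 : f₂.IsHomogeneous 2)
    (hdeg : (disc f₁ f₂).natDegree = 7) :
    (Irreducible (disc f₁ f₂) → Smooth f₁ f₂ ∧ NoSquareNorm f₁ f₂) ∧
    (Smooth f₁ f₂ → NoSquareNorm f₁ f₂ →
      (∀ φ : K →+* ℝ, ∃ x : Fin 7 → ℝ, x ≠ 0 ∧
        MvPolynomial.eval₂ φ x f₁ = 0 ∧ MvPolynomial.eval₂ φ x f₂ = 0) →
      (∀ v : HeightOneSpectrum (𝓞 K), ∃ x : Fin 7 → v.adicCompletion K, x ≠ 0 ∧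
        MvPolynomial.eval₂ (algebraMap K (v.adicCompletion K)) x f₁ = 0 ∧
        MvPolynomial.eval₂ (algebraMap K (v.adicCompletion K)) x f₂ = 0) →
      ∃ x : Fin 7 → K, x ≠ 0 ∧ MvPolynomial.eval x f₁ = 0 ∧ MvPolynomial.eval x f₂ = 0) := by
  refine ⟨fun hirr => ⟨?_, ?_⟩, fun hsm hNV hR hF => ?_⟩
  · exact Pool.Agent.H32.N6.smooth Pool.Agent.H32.N6.AllIrr.hes Pool.Agent.H32.N6.AllIrr.smo K
      f₁ f₂ h1 h2 hirr hdeg
  · exact (nv_iff f₁ f₂).2 (Pool.Agent.H32.N6V.nv_of_irr hirr)
  · exact Pool.Agent.H32.N6V.hasse2 Pool.Agent.H32.N6.AllIrr.hes Pool.Agent.H32.N6V.All2.mai2 K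
      f₁ f₂ h1 h2 hdeg hsm ((nv_iff f₁ f₂).1 hNV) hR hF

end Pool.Agent.Results.MP_63b6b1_nt.SmoothDimensionFour
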