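import Pool.Agent.H32.N6W.Top3

/-!
# The Hasse principle for all smooth intersections of two quadrics in `ℙ⁶`

`MP_63b6b1_nt`, `n = 6`, every number field `K` and every smooth complete intersection of two
quadrics in `ℙ⁶` over `K`. There is no condition besides smoothness. The statement is the frozen
statement for `n = 6` (without the condition at the complex places, which always holds).
-/

set_option autoImplicit false

namespace Pool.Agent.Results.MP_63b6b1_nt.SmoothDimensionFour

/-- Let `K` be a number field and let `f₁`, `f₂` be quadratic forms in seven variables over `K`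
whose common zero set `X` in `ℙ⁶` is a smooth complete intersection. If `X` has a point over `ℝ`
for every real embedding of `K` and over `K_v` for every finite place `v`, then `X` has a point
over `K`. -/
theorem result (K : Type) [Field K] [NumberField K] (f₁ f₂ : MvPolynomial (Fin 7) K)
    (h1 : f₁.IsHomogeneous 2) (h2 : f₂.IsHomogeneous 2)
    (hsmooth : ∀ x : Fin 7 → AlgebraicClosure K, x ≠ 0 →
      MvPolynomial.eval₂ (algebraMap K (AlgebraicClosure K)) x f₁ = 0 →
      MvPolynomial.eval₂ (algebraMap K (AlgebraicClosure K)) x f₂ = 0 →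
      LinearIndependent (AlgebraicClosure K)
        ![fun i => MvPolynomial.eval₂ (algebraMap K (AlgebraicClosure K)) x
            (MvPolynomial.pderiv i f₁),
          fun i => MvPolynomial.eval₂ (algebraMap K (AlgebraicClosure K)) x
            (MvPolynomial.pderiv i f₂)])
    (hreal : ∀ φ : K →+* ℝ, ∃ x : Fin 7 → ℝ, x ≠ 0 ∧
      MvPolynomial.eval₂ φ x f₁ = 0 ∧ MvPolynomial.eval₂ φ x f₂ = 0)
    (hfinite : ∀ v : IsDedekindDomain.HeightOneSpectrum (NumberField.RingOfIntegers K),
      ∃ x : Fin 7 → v.adicCompletion K, x ≠ 0 ∧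
        MvPolynomial.eval₂ (algebraMap K (v.adicCompletion K)) x f₁ = 0 ∧
        MvPolynomial.eval₂ (algebraMap K (v.adicCompletion K)) x f₂ = 0) :
    ∃ x : Fin 7 → K, x ≠ 0 ∧ MvPolynomial.eval x f₁ = 0 ∧ MvPolynomial.eval x f₂ = 0 :=
  Pool.Agent.H32.N6W.hasse3 Pool.Agent.H32.N6.AllIrr.hes Pool.Agent.H32.N6W.Top3.mai K f₁ f₂
    h1 h2 hsmooth hreal hfinite

end Pool.Agent.Results.MP_63b6b1_nt.SmoothDimensionFour
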